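import Mathlib
import Pool.Agent.K7.H93.CFU.Units
import Pool.Agent.K7.H93.CFU.CF

set_option autoImplicit false

/-!
# A monoid with context-free word problem whose group of units is not finitely generated

The monoid is the special monoid generated by `o i`, `m i`, `k i` (`i : Bool`) with the relations
`t i n * t (!i) n = 1` for all `i`, `n`, where `t i n = o i * (m i)^n * k i`.
-/

namespace Pool.Agent.Results.MP_435286_al.UnitsNotFG

/-- The word problem language `{u # v^rev : u = v in M}` of a monoid `M` with respect to a family
`π : A → M`; the letter `#` is `none`, the letter `a` is `some a`. -/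
def WP {M A : Type} [Monoid M] (π : A → M) : Language (Option A) :=
  {w | ∃ u v : List A, (u.map π).prod = (v.map π).prod ∧
    w = u.map some ++ [none] ++ v.reverse.map some}

/-- `M` is finitely generated and has context-free word problem with respect to some finite
generating set. -/
def HasContextFreeWP (M : Type) [Monoid M] : Prop :=
  ∃ (A : Type) (_ : Finite A) (π : A → M), Function.Injective π ∧
    Submonoid.closure (Set.range π) = ⊤ ∧ (WP π).IsContextFree

open Pool.Agent.K7.H93.CFU in
theorem hasContextFreeWP_M : HasContextFreeWP M := by
  refine ⟨A, inferInstance, fun x => pr [x], ?_, ?_, ?_⟩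
  · intro x y h
    have h0 : ∀ x : A, Irr [x] := by
      intro x p q i n h
      have := congrArg List.length h
      simp [tok] at this
      omega
    have h1 : nf [x] = nf [y] := pr_eq_iff.1 h
    rw [nf_of_Irr (h0 x), nf_of_Irr (h0 y)] at h1
    exact (List.cons.inj h1).1
  · rw [eq_top_iff]
    intro x _
    obtain ⟨w, rfl⟩ := pr_surjective x
    rw [← pr_prod w]
    apply Submonoid.list_prod_mem
    intro y hy
    obtain ⟨a, -, rfl⟩ := List.mem_map.1 hy
    exact Submonoid.subset_closure ⟨a, rfl⟩
  · have h1 : WP (fun x : A => pr [x]) = WPl := by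
      apply Set.Subset.antisymm
      · rintro w ⟨u, v, huv, rfl⟩
        rw [pr_prod, pr_prod] at huv
        exact ⟨u, v, huv, rfl⟩
      · rintro w ⟨u, v, huv, rfl⟩
        refine ⟨u, v, ?_, rfl⟩
        rw [pr_prod, pr_prod]
        exact huv
    rw [h1]
    exact WPl_isContextFree

/-- There is a monoid with context-free word problem whose group of units is not finitely
generated. -/
theorem result : ∃ (M : Type) (_ : Monoid M), HasContextFreeWP M ∧ ¬ Group.FG Mˣ :=
  ⟨Pool.Agent.K7.H93.CFU.M, inferInstance, hasContextFreeWP_M,
    Pool.Agent.K7.H93.CFU.not_fg⟩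

end Pool.Agent.Results.MP_435286_al.UnitsNotFG
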